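import Mathlib

open Set Matrix

namespace Pool.Agent.Results.MP_332e42_an.Fails

variable {d : ℕ}

/-- every complex eigenvalue has modulus `> 1` -/
def Expansive (R : Matrix (Fin d) (Fin d) ℤ) : Prop :=
  ∀ z ∈ spectrum ℂ (R.map (Int.cast : ℤ → ℂ)), 1 < ‖z‖

/-- congruence modulo the lattice `R(ℤ^d)` -/
def Cong (R : Matrix (Fin d) (Fin d) ℤ) (u v : Fin d → ℤ) : Prop := ∃ w, u - v = R *ᵥ w

def Simple (R : Matrix (Fin d) (Fin d) ℤ) (B : Finset (Fin d → ℤ)) : Prop :=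
  ∀ u ∈ B, ∀ v ∈ B, Cong R u v → u = v

def Complete (R : Matrix (Fin d) (Fin d) ℤ) (B : Finset (Fin d → ℤ)) : Prop :=
  ∀ v, ∃! u, u ∈ B ∧ Cong R u v

/-- `τ_b(x) = R⁻¹ (x + b)` -/
noncomputable def tau (R : Matrix (Fin d) (Fin d) ℤ) (b : Fin d → ℤ) (x : Fin d → ℝ) :
    Fin d → ℝ :=
  (R.map (Int.cast : ℤ → ℝ))⁻¹ *ᵥ (x + fun i => (b i : ℝ))

/-- `T` is the attractor of the IFS attached to `(R, B)` -/
def IsAttr (R : Matrix (Fin d) (Fin d) ℤ) (B : Finset (Fin d → ℤ)) (T : Set (Fin d → ℝ)) :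
    Prop :=
  T.Nonempty ∧ IsCompact T ∧ T = ⋃ b ∈ B, tau R b '' T

lemma tau2 (b : Fin 1 → ℤ) (x : Fin 1 → ℝ) : tau !![2] b x 0 = (x 0 + b 0) / 2 := by
  have : ((!![2] : Matrix (Fin 1) (Fin 1) ℤ).map (Int.cast : ℤ → ℝ))⁻¹ = !![1 / 2] := by
    apply Matrix.inv_eq_left_inv
    ext i j; fin_cases i; fin_cases j; simp [Matrix.mul_apply]
  rw [tau, this]; simp [Matrix.mulVec, dotProduct]; ring

lemma sgn {B T} (h : IsAttr !![2] B T) (s : ℝ) (hs : ∀ b ∈ B, 0 ≤ s * (b 0 : ℝ)) :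
    ∀ x ∈ T, 0 ≤ s * x 0 := by
  obtain ⟨h1, h2, h3⟩ := h
  obtain ⟨m, hm, hmin⟩ := h2.exists_isMinOn h1 (f := fun x => s * x 0) (by fun_prop)
  have hm' := hm
  rw [h3] at hm'
  simp only [mem_iUnion, mem_image] at hm'
  obtain ⟨b, hb, y, hy, e⟩ := hm'
  have e1 : m 0 = (y 0 + b 0) / 2 := by rw [← e, tau2]
  have e2 : s * m 0 ≤ s * y 0 := hmin hy
  have e3 := hs b hb
  have e4 : s * m 0 = (s * y 0 + s * b 0) / 2 := by rw [e1]; ring
  intro x hx
  have : s * m 0 ≤ s * x 0 := hmin hx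
  linarith

theorem result : ∃ (d : ℕ) (R : Matrix (Fin d) (Fin d) ℤ) (B : Finset (Fin d → ℤ)),
    1 ≤ d ∧ Expansive R ∧ B.Nonempty ∧ Simple R B ∧
    ∀ B' : Finset (Fin d → ℤ), B ⊆ B' → Complete R B' →
      ∀ T T' : Set (Fin d → ℝ), IsAttr R B T → IsAttr R B' T' → T ∩ interior T' = ∅ := by
  refine ⟨1, !![2], {0}, le_rfl, ?_, by simp, ?_, ?_⟩
  · intro z hz
    rw [Matrix.mem_spectrum_iff_isRoot_charpoly] at hz
    simp [Matrix.charpoly] at hz
    rw [sub_eq_zero.1 hz]; simp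
  · intro u hu v hv _
    rw [Finset.mem_singleton.1 hu, Finset.mem_singleton.1 hv]
  · intro B' hB hC T T' hT hT'
    have hcong : ∀ u v : Fin 1 → ℤ, Cong !![2] u v ↔ 2 ∣ u 0 - v 0 := by
      intro u v
      constructor
      · rintro ⟨w, hw⟩
        exact ⟨w 0, by simpa [Matrix.mulVec, dotProduct] using congrFun hw 0⟩
      · rintro ⟨w, hw⟩
        exact ⟨fun _ => w, by ext i; fin_cases i; simpa [Matrix.mulVec, dotProduct] using hw⟩
    obtain ⟨u0, -, h0⟩ := hC 0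
    obtain ⟨u1, -, h1⟩ := hC 1
    have hz : (0 : Fin 1 → ℤ) = u0 := h0 0 ⟨hB (by simp), (hcong _ _).2 (by simp)⟩
    obtain ⟨s, hs0, hs⟩ : ∃ s : ℝ, s ≠ 0 ∧ ∀ b ∈ B', 0 ≤ s * (b 0 : ℝ) := by
      have hb : ∀ b ∈ B', b = 0 ∨ b = u1 := by
        intro b hb
        by_cases h : 2 ∣ b 0
        · exact Or.inl ((h0 b ⟨hb, (hcong _ _).2 (by simpa using h)⟩).trans hz.symm)
        · exact Or.inr (h1 b ⟨hb, (hcong _ _).2 (by simp only [Pi.one_apply]; omega)⟩)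
      rcases le_total 0 (u1 0 : ℝ) with h | h
      · exact ⟨1, one_ne_zero, fun b hb' => by rcases hb b hb' with rfl | rfl <;> simp [h]⟩
      · exact ⟨-1, by norm_num, fun b hb' => by
          rcases hb b hb' with rfl | rfl
          · simp
          · linarith⟩
    rw [eq_empty_iff_forall_notMem]
    rintro x ⟨hx, hx'⟩
    have a1 := sgn hT 1 (by simp) x hx
    have a2 := sgn hT (-1) (by simp) x hx
    have hx0 : x 0 = 0 := by linarith
    have hc : Continuous fun t : ℝ => x - fun _ => t * s := by fun_prop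
    have ht : ∀ᶠ t in nhds (0 : ℝ), (x - fun _ => t * s) ∈ T' :=
      hc.continuousAt.eventually_mem (by
        have : (x - fun _ => (0 : ℝ) * s) = x := by ext i; simp
        rw [this]; exact mem_interior_iff_mem_nhds.1 hx')
    obtain ⟨t, ht1, ht2⟩ := ((ht.filter_mono nhdsWithin_le_nhds).and
      (self_mem_nhdsWithin (a := (0 : ℝ)) (s := Ioi 0))).exists
    have := sgn hT' s hs _ ht1
    simp only [Pi.sub_apply, hx0] at this
    have h3 : 0 < t * (s * s) := mul_pos ht2 (mul_self_pos.2 hs0)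
    nlinarith

end Pool.Agent.Results.MP_332e42_an.Fails
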